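import Pool.Agent.P8H73.CH.Conf

namespace Pool.Agent.P8H73.CH

/-- every finite window of `x` occurs in the model configuration of level `n` -/
def Approx (n : ℕ) (x : ℤ → ℤ → ℤ → Cell) : Prop :=
  ∀ L : ℕ, ∃ a b c : ℤ, ∀ i j h : ℤ, -(L : ℤ) ≤ i → i ≤ L → -(L : ℤ) ≤ j → j ≤ L →
    -(L : ℤ) ≤ h → h ≤ L → x i j h = xn n (i + a) (j + b) (h + c)

theorem approx_of_sh {n : ℕ} {x : ℤ → ℤ → ℤ → Cell} {a b c : ℤ} (hx : Approx n (sh a b c x)) :
    Approx n x := by
  intro L
  obtain ⟨a', b', c', h⟩ := hx (L + a.natAbs + b.natAbs + c.natAbs)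
  refine ⟨-a + a', -b + b', -c + c', fun i j k h1 h2 h3 h4 h5 h6 => ?_⟩
  have := h (i - a) (j - b) (k - c) (by omega) (by omega) (by omega) (by omega) (by omega)
    (by omega)
  unfold sh at this
  rw [sub_add_cancel, sub_add_cancel, sub_add_cancel] at this
  rw [this]
  congr 1 <;> ring

theorem approx_blank {n m : ℕ} {x : ℤ → ℤ → ℤ → Cell} (hv : Valid m x)
    (hs : ∀ j, cs (x 0 j 0) = false) : Approx n x := by
  intro L
  refine ⟨0, -L - 1, 0, fun i j k _ _ _ h4 _ _ => ?_⟩
  rw [hv.blank (hs j), xn_neg (by omega)]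

/-- the case of a wall at column `0` -/
theorem walled {n m : ℕ} {x : ℤ → ℤ → ℤ → Cell} (hv : Valid m x)
    (hs0 : cs (x 0 (-1) 0) = false) (hs1 : cs (x 0 0 0) = true) (L : ℕ) (off : ℤ)
    (hg : ∀ i h : ℤ, -(L : ℤ) ≤ h → h ≤ L → cg (x i 0 h) = decide (0 ≤ h + off))
    (hT : ∀ i0 : ℤ, N (bB x 0) i0 (L + 1) = 0 → cC x 0 (i0 - 1) (L + 1) = true →
      ∃ q : ℕ, ∀ h : ℤ, -((2 * L + 1 : ℕ) : ℤ) ≤ h → h ≤ ((2 * L + 1 : ℕ) : ℤ) →
      tT x 0 (i0 - 1) (L + 1) h = Sg n q (h + off) ∧ tT x 0 i0 (L + 1) h = Sg n (q + 1) (h + off)) :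
    ∃ a b c : ℤ, ∀ i j h : ℤ, -(L : ℤ) ≤ i → i ≤ L → -(L : ℤ) ≤ j → j ≤ L →
      -(L : ℤ) ≤ h → h ≤ L → x i j h = xn n (i + a) (j + b) (h + c) := by
  have H : Half (bB x 0) (cC x 0) (tT x 0) := hv.half hs1
  have Hm := half_model n
  have hC0 : ∀ i, cC x 0 i 0 = true := hv.wall_c (by simpa using hs0) hs1
  set K := L + 1 with hK
  set N0 := N (bB x 0) 0 K with hN0
  have hP1 : K < 2 ^ K := Nat.lt_two_pow_self
  have hP2 : (K : ℤ) < 2 ^ K := by exact_mod_cast hP1
  have hLP : 2 * (L : ℤ) + 2 ≤ 2 ^ K := by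
    have h1 : L < 2 ^ L := Nat.lt_two_pow_self
    have h2 : (L : ℤ) < 2 ^ L := by exact_mod_cast h1
    rw [hK, pow_succ]; linarith
  set P : ℤ := 2 ^ K with hP
  have hPpos : 0 < P := by positivity
  set i0 : ℤ := -L + (L - N0) % P with hi0
  have hi1 : -(L : ℤ) ≤ i0 := by
    have := Int.emod_nonneg (L - N0) hPpos.ne'
    omega
  have hi2 : i0 < -L + P := by
    have := Int.emod_lt_of_pos (L - N0) hPpos
    omega
  have hNi : ∀ i, N (bB x 0) i K = (i - i0) % P := by
    intro i
    rw [N_mod H hC0, ← hN0]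
    have h1 := Int.emod_add_mul_ediv (L - N0) P
    have h2 : i - i0 = N0 + i + P * ((L - N0) / P) := by
      have : (L - N0) % P = L - N0 - P * ((L - N0) / P) := by linarith
      rw [hi0, this]; ring
    rw [h2, Int.add_mul_emod_self_left]
  have hNi0 : N (bB x 0) i0 K = 0 := by rw [hNi, sub_self, Int.zero_emod]
  have hNi1 : N (bB x 0) (i0 - 1) K = P - 1 := by
    rw [hNi, show i0 - 1 - i0 = -1 by ring]
    rw [← Int.add_emod_right, Int.emod_eq_of_lt (by linarith) (by linarith)]
    ring
  obtain ⟨q, hq⟩ := hT i0 hNi0 (C_true_of_N H (hC0 _) hNi1)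
  have hlow : ∀ i, i0 - P ≤ i → i < i0 → ∀ h, tT x 0 i K h = tT x 0 (i0 - 1) K h := by
    intro i h1 h2 h
    symm
    apply T_const H (by omega)
    intro i' h3 h4
    apply C_false_of_N H
    rw [hNi, ← Int.add_emod_right, Int.emod_eq_of_lt (by linarith) (by linarith)]
    intro h5
    omega
  have hhigh : ∀ i, i0 ≤ i → i < i0 + P → ∀ h, tT x 0 i K h = tT x 0 i0 K h := by
    intro i h1 h2 h
    apply T_const H h1
    intro i' h3 h4
    apply C_false_of_N H
    rw [hNi, Int.emod_eq_of_lt (by linarith) (by linarith)]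
    intro h5
    omega
  refine ⟨(q + 1) * P - i0, 0, off, ?_⟩
  intro i j h h1 h2 h3 h4 h5 h6
  -- comparison of the row `i`
  have hNN : N (bB x 0) i K = N Bn (i + ((q + 1) * P - i0)) K := by
    have h7 := N_model (i + ((q + 1) * P - i0)) K 0
    simp only [zero_add, D_zero] at h7
    rw [h7, hNi, ← hP]
    have e : i + ((q + 1) * P - i0) = (i - i0) + P * (q + 1) := by ring
    rw [e, Int.add_mul_emod_self_left]
  have hTT : ∀ h : ℤ, -((2 * L + 1 : ℕ) : ℤ) ≤ h → h ≤ ((2 * L + 1 : ℕ) : ℤ) →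
      tT x 0 i K h = Tn n (i + ((q + 1) * P - i0)) K (h + off) := by
    intro h h7 h8
    obtain ⟨hq1, hq2⟩ := hq h h7 h8
    unfold Tn
    rcases lt_or_ge i i0 with hi | hi
    · rw [hlow i (by linarith) hi, hq1]
      congr 1
      symm
      have e : i + ((q + 1) * P - i0) = q * 2 ^ K + (i - i0 + P) := by rw [← hP]; ring
      rw [e]
      exact D_block _ _ _ (by linarith) (by linarith)
    · rw [hhigh i hi (by linarith), hq2]
      congr 1
      symm
      have e : i + ((q + 1) * P - i0) = (q + 1) * 2 ^ K + (i - i0) := by rw [← hP]; ring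
      rw [e]
      exact D_block _ _ _ (by linarith) (by linarith)
  have hBB := bits_eq hNN
  have hCC := det H Hm (i := i) (i' := i + ((q + 1) * P - i0)) (K := K)
    (by rw [hC0, Cn_zero]) hNN
  have hTd := detT H Hm hNN hTT
  rcases lt_or_ge j 0 with hj | hj
  · rw [xn_neg (by omega)]
    apply hv.blank
    by_contra hcon
    have := mono_of_succ (fun j => cs (x 0 j 0)) (fun j hj => hv.s_mono j hj)
      (i := j) (j := -1) (by omega) (by simpa using hcon)
    rw [hs0] at this; exact absurd this (by simp)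
  · obtain ⟨k, rfl⟩ := Int.eq_ofNat_of_zero_le hj
    have hkK : k < K := by omega
    have hspos : ∀ j : ℤ, 0 ≤ j → cs (x 0 j 0) = true := fun j hj =>
      mono_of_succ (fun j => cs (x 0 j 0)) (fun j hj => hv.s_mono j hj) (i := 0) (j := j) hj hs1
    rw [add_zero, xn_nonneg]
    apply Cell.ext'
    · rw [hv.s_eq, hspos _ hj]; rfl
    · rw [hv.b_eq]
      have := hBB k hkK
      unfold bB at this
      rw [zero_add] at this
      exact this
    · rw [hv.c_eq]
      have := hCC k hkK.le
      unfold cC at this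
      rw [zero_add] at this
      exact this
    · have := hTd (K - k) (by omega) h (by push_cast [Nat.cast_sub hkK.le]; omega)
        (by push_cast [Nat.cast_sub hkK.le]; omega)
      rw [show K - (K - k) = k by omega] at this
      unfold tT at this
      rw [zero_add] at this
      exact this
    · rcases Nat.eq_zero_or_pos k with hk | hk
      · subst hk
        have := hg i h h5 h6
        simp [cg] at this ⊢
        exact this
      · have e : (k : ℤ) = ((k : ℤ) - 1) + 1 := by ring
        have h7 := (hv i ((k : ℤ) - 1) h).gn (by rw [hv.s_eq]; exact hspos _ (by omega))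
        rw [← e] at h7
        rw [h7]
        symm
        unfold cg
        simp only
        rw [decide_eq_false_iff_not]
        intro h8; have := h8.1; omega

/-- with a wall -/
theorem approx_wall {n : ℕ} {x : ℤ → ℤ → ℤ → Cell} (hv : Valid (n + 1) x)
    (hs0 : cs (x 0 (-1) 0) = false) (hs1 : cs (x 0 0 0) = true) : Approx n x := by
  have H : Half (bB x 0) (cC x 0) (tT x 0) := hv.half hs1
  have wall1 : ∀ i h, cs (x i (-1) h) = false := fun i h => by rw [hv.s_eq]; exact hs0
  have wall2 : ∀ i h, cs (x i (-1 + 1) h) = true := fun i h => by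
    rw [hv.s_eq, neg_add_cancel]; exact hs1
  have gi : ∀ i h, cg (x i 0 h) = cg (x 0 0 h) := by
    intro i h
    refine const_of_succ (fun i => cg (x i 0 h)) (fun i => ?_) i
    have := (hv i (-1) h).gi (wall1 i h) (wall2 i h)
    rw [neg_add_cancel] at this; exact this
  have gh : ∀ h, cg (x 0 0 h) = true → cg (x 0 0 (h + 1)) = true := by
    intro h hh
    have := (hv 0 (-1) h).gh (wall1 0 h) (wall2 0 h)
    rw [neg_add_cancel] at this; exact this hh
  have gt : ∀ i h, cg (x i 0 h) = false → ct (x i 0 (h + ((n + 1 : ℕ) : ℤ))) = true := by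
    intro i h hh
    have := (hv i (-1) h).gt (wall1 i h) (wall2 i h)
    rw [neg_add_cancel] at this; exact this hh
  rcases mono_cases (fun h => cg (x 0 0 h)) gh with hc | hc | ⟨w, hw⟩
  · -- everything is above the base: all cells are below the surface
    have hall : ∀ (k : ℕ) (i h : ℤ), tT x 0 i k h = true := by
      intro k
      induction k with
      | zero =>
        intro i h
        unfold tT
        have := gt i (h - ((n + 1 : ℕ) : ℤ)) (by rw [gi]; exact hc _)
        rw [sub_add_cancel] at this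
        simpa using this
      | succ k ih =>
        intro i h
        have := H.r1 i k (h + z (bB x 0 i k))
        rw [add_sub_cancel_right, ih] at this
        exact this.symm
    intro L
    refine walled hv hs0 hs1 L (-(2 * L + 2)) ?_ ?_
    · intro i h h1 h2
      rw [gi]
      refine (hc h).trans ?_
      symm
      rw [decide_eq_false_iff_not]
      omega
    · intro i0 _ _
      refine ⟨0, fun h h1 h2 => ?_⟩
      rw [hall, hall]
      unfold Sg
      constructor <;> symm <;> rw [decide_eq_true_iff] <;> right <;> push_cast at h2 <;> omega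
  · -- everything is below the base
    intro L
    refine walled hv hs0 hs1 L (((2 * L + 1 : ℕ) : ℤ) + n + 1) ?_ ?_
    · intro i h h1 h2
      rw [gi]
      refine (hc h).trans ?_
      symm
      rw [decide_eq_true_iff]
      push_cast; omega
    · intro i0 _ hC
      exact choose _ _ (H.th _ _) (H.th _ _) (fun h hh => H.r3 (i0 - 1) (L + 1) h hC
        (by rw [sub_add_cancel]; exact hh)) _ _ _ (Or.inl le_rfl)
  · -- a base at height `w`
    apply approx_of_sh (a := 0) (b := 0) (c := w)
    have hv' := hv.sh 0 0 w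
    have hs0' : cs (sh 0 0 w x 0 (-1) 0) = false := by
      unfold sh; rw [hv.s_eq, add_zero]; exact hs0
    have hs1' : cs (sh 0 0 w x 0 0 0) = true := by
      unfold sh; rw [hv.s_eq, add_zero]; exact hs1
    have H' : Half (bB (sh 0 0 w x) 0) (cC (sh 0 0 w x) 0) (tT (sh 0 0 w x) 0) := hv'.half hs1'
    have key : ∀ L : ℕ, n ≤ L → ∃ a b c : ℤ, ∀ i j h : ℤ, -(L : ℤ) ≤ i → i ≤ L → -(L : ℤ) ≤ j →
        j ≤ L → -(L : ℤ) ≤ h → h ≤ L → sh 0 0 w x i j h = xn n (i + a) (j + b) (h + c) := by
      intro L hL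
      refine walled hv' hs0' hs1' L 0 ?_ ?_
      · intro i h h1 h2
        unfold sh
        rw [add_zero, add_zero, gi]
        refine (hw _).trans ?_
        rw [decide_eq_decide]
        omega
      · intro i0 hi0 hC
        refine choose _ _ (H'.th _ _) (H'.th _ _) (fun h hh => H'.r3 (i0 - 1) (L + 1) h hC
          (by rw [sub_add_cancel]; exact hh)) _ _ _ (Or.inr ⟨by push_cast; omega, by push_cast; omega, ?_⟩)
        rw [T_zero_bits H' (zero_bits hi0)]
        unfold tT sh
        have h3 := gt i0 (w - 1) (by rw [gi]; refine (hw _).trans ?_; rw [decide_eq_false_iff_not]; omega)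
        rw [show w - 1 + ((n + 1 : ℕ) : ℤ) = n + w by push_cast; ring] at h3
        simpa using h3
    intro L
    obtain ⟨a, b, c, h⟩ := key (L + n) (by omega)
    refine ⟨a, b, c, fun i j k h1 h2 h3 h4 h5 h6 => h i j k ?_ ?_ ?_ ?_ ?_ ?_⟩ <;> push_cast <;> omega

/-- without a wall, the carry passes a given column at most once -/
theorem once {m : ℕ} {x : ℤ → ℤ → ℤ → Cell} (hv : Valid m x) (hs : ∀ j, cs (x 0 j 0) = true)
    (a : ℤ) {i1 i2 : ℤ} (h12 : i1 < i2) (h1 : cC x a i1 0 = true) (h2 : cC x a i2 0 = true) :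
    False := by
  set p := (i2 - i1).toNat with hp
  have hpp : p < 2 ^ p := Nat.lt_two_pow_self
  have hpz : (p : ℤ) < 2 ^ p := by exact_mod_cast hpp
  have H : Half (bB x (a - p)) (cC x (a - p)) (tT x (a - p)) := hv.half (hs _)
  have e : ∀ i, cC x (a - p) i p = cC x a i 0 := by
    intro i; unfold cC
    rw [sub_add_cancel]; simp
  have c1 := (C_true H (i := i1) (K := p) (by rw [e]; exact h1)).2
  have c0 := (C_true H (i := i1) (K := p) (by rw [e]; exact h1)).1
  have c2 := (C_true H (i := i2) (K := p) (by rw [e]; exact h2)).2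
  have s1 := N_step H i1 p
  rw [c1, c0, e, h1, z_true] at s1
  have hall : ∀ q : ℕ, N (bB x (a - p)) (i1 + 1 + q) p ≤ q := by
    intro q
    induction q with
    | zero => simp only [Nat.cast_zero, add_zero]; linarith
    | succ q ih =>
      have s2 := N_step H (i1 + 1 + q) p
      have e2 : i1 + 1 + ((q + 1 : ℕ) : ℤ) = i1 + 1 + q + 1 := by push_cast; ring
      rw [e2]
      have z1 : 0 ≤ z (cC x (a - p) (i1 + 1 + q) p) := by
        cases cC x (a - p) (i1 + 1 + q) p <;> simp [z]
      have z2 : z (cC x (a - p) (i1 + 1 + q) 0) ≤ 1 := by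
        cases cC x (a - p) (i1 + 1 + q) 0 <;> simp [z]
      have z3 : (0 : ℤ) < 2 ^ p := by positivity
      push_cast
      nlinarith
  have h3 := hall (p - 1)
  have e3 : i1 + 1 + ((p - 1 : ℕ) : ℤ) = i2 := by omega
  rw [e3, c2] at h3
  omega

/-- the case without a wall -/
theorem approx_nowall {n m : ℕ} {x : ℤ → ℤ → ℤ → Cell} (hv : Valid m x)
    (hs : ∀ j, cs (x 0 j 0) = true) : Approx n x := by
  intro L
  set a : ℤ := -L with ha
  have H : Half (bB x a) (cC x a) (tT x a) := hv.half (hs _)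
  have Hm := half_model n
  set K := 2 * L + 1 with hK
  set off : ℤ := ((3 * L + 1 : ℕ) : ℤ) + n + 1 with hoff
  have hPK : (0 : ℤ) < 2 ^ K := by positivity
  -- the row of the carry
  obtain ⟨r, hr1, hr2, hr⟩ : ∃ r : ℤ, -(L : ℤ) ≤ r ∧ r ≤ L + 1 ∧
      ∀ i : ℤ, -(L : ℤ) ≤ i → i ≤ L → cC x a i 0 = decide (i = r) := by
    by_cases hex : ∃ r : ℤ, -(L : ℤ) ≤ r ∧ r ≤ L ∧ cC x a r 0 = true
    · obtain ⟨r, h1, h2, h3⟩ := hex
      refine ⟨r, h1, by omega, fun i h4 h5 => ?_⟩
      rw [Bool.eq_iff_iff, decide_eq_true_iff]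
      constructor
      · intro h6
        rcases lt_trichotomy i r with h7 | h7 | h7
        · exact (once hv hs a h7 h6 h3).elim
        · exact h7
        · exact (once hv hs a h7 h3 h6).elim
      · intro h6; rw [h6]; exact h3
    · refine ⟨L + 1, by omega, le_rfl, fun i h4 h5 => ?_⟩
      have h6 : cC x a i 0 = false := by
        by_contra hcon
        exact hex ⟨i, h4, h5, by simpa using hcon⟩
      rw [h6]; symm; rw [decide_eq_false_iff_not]; omega
  have hCf : ∀ i : ℤ, -(L : ℤ) ≤ i → i ≤ L → i ≠ r → cC x a i 0 = false := by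
    intro i h1 h2 h3
    rw [hr i h1 h2, decide_eq_false_iff_not]; exact h3
  have hCKf : ∀ i : ℤ, cC x a i 0 = false → cC x a i K = false := by
    intro i h1
    by_contra hcon
    have := (C_true H (i := i) (K := K) (by simpa using hcon)).1
    rw [h1] at this; exact absurd this (by simp)
  set Nm := N (bB x a) (-L) K with hNm
  have hNmb := N_bd (bB x a) (-L) K
  have hNlow : ∀ i : ℤ, -(L : ℤ) ≤ i → i ≤ L → i ≤ r → N (bB x a) i K = Nm := by
    intro i h1 h2 h3
    exact N_const H h1 (fun i' h4 h5 => hCf i' h4 (by omega) (by omega))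
  have hTlow : ∀ i : ℤ, -(L : ℤ) ≤ i → i ≤ L → i ≤ r → ∀ h, tT x a i K h = tT x a (-L) K h := by
    intro i h1 h2 h3 h
    exact T_const H h1 (fun i' h4 h5 => hCKf _ (hCf i' h4 (by omega) (by omega))) h
  have hNhigh : ∀ i : ℤ, i ≤ L → r < i → N (bB x a) i K = N (bB x a) (r + 1) K := by
    intro i h2 h3
    exact N_const H (by omega) (fun i' h4 h5 => hCf i' (by omega) (by omega) (by omega))
  have hThigh : ∀ i : ℤ, i ≤ L → r < i → ∀ h, tT x a i K h = tT x a (r + 1) K h := by
    intro i h2 h3 h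
    exact T_const H (by omega) (fun i' h4 h5 => hCKf _ (hCf i' (by omega) (by omega) (by omega))) h
  -- the value of the high part
  obtain ⟨Q, hQ⟩ : ∃ Q : ℤ, ∀ i : ℤ, -(L : ℤ) ≤ i → i ≤ L →
      (N (bB x a) i K = (if i ≤ r then Q else Q + 1) % 2 ^ K) ∧
      ∀ h : ℤ, -((3 * L + 1 : ℕ) : ℤ) ≤ h → h ≤ ((3 * L + 1 : ℕ) : ℤ) →
        tT x a i K h = Sg n ((if i ≤ r then Q else Q + 1) / 2 ^ K) (h + off) := by
    by_cases hcase : r < L ∧ Nm = 2 ^ K - 1
    · obtain ⟨hrL, hN1⟩ := hcase
      have hCr : cC x a r 0 = true := by rw [hr r hr1 (by omega)]; simp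
      have hCrK : cC x a r K = true :=
        C_true_of_N H hCr (by rw [hNlow r hr1 (by omega) le_rfl, hN1])
      have hNr1 : N (bB x a) (r + 1) K = 0 := by
        have := N_step H r K
        rw [hCr, hCrK, z_true, hNlow r hr1 (by omega) le_rfl, hN1] at this
        linarith
      obtain ⟨q, hq⟩ := choose (tT x a r K) (tT x a (r + 1) K) (H.th _ _) (H.th _ _)
        (fun h hh => H.r3 r K h hCrK hh) (3 * L + 1) n off (Or.inl le_rfl)
      refine ⟨q * 2 ^ K + Nm, fun i h1 h2 => ?_⟩
      by_cases hir : i ≤ r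
      · rw [if_pos hir]
        have e1 : ((q : ℤ) * 2 ^ K + Nm) % 2 ^ K = Nm := by
          rw [add_comm, Int.add_mul_emod_self_right, Int.emod_eq_of_lt hNmb.1 hNmb.2]
        have e2 : ((q : ℤ) * 2 ^ K + Nm) / 2 ^ K = q := by
          rw [add_comm, Int.add_mul_ediv_right _ _ hPK.ne', Int.ediv_eq_zero_of_lt hNmb.1 hNmb.2,
            zero_add]
        rw [e1, e2]
        refine ⟨hNlow i h1 h2 hir, fun h h3 h4 => ?_⟩
        rw [hTlow i h1 h2 hir, ← hTlow r hr1 (by omega) le_rfl]
        exact (hq h h3 h4).1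
      · rw [if_neg hir]
        have e0 : (q : ℤ) * 2 ^ K + Nm + 1 = (q + 1) * 2 ^ K := by rw [hN1]; ring
        rw [e0, Int.mul_emod_left, Int.mul_ediv_cancel _ hPK.ne']
        refine ⟨(hNhigh i h2 (by omega)).trans hNr1, fun h h3 h4 => ?_⟩
        rw [hThigh i h2 (by omega)]
        exact (hq h h3 h4).2
    · obtain ⟨q, hq⟩ := choose (tT x a (-L) K) (tT x a (-L) K) (H.th _ _) (H.th _ _)
        (fun h hh => H.th _ _ h hh) (3 * L + 1) n off (Or.inl le_rfl)
      refine ⟨q * 2 ^ K + Nm, fun i h1 h2 => ?_⟩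
      by_cases hir : i ≤ r
      · rw [if_pos hir]
        have e1 : ((q : ℤ) * 2 ^ K + Nm) % 2 ^ K = Nm := by
          rw [add_comm, Int.add_mul_emod_self_right, Int.emod_eq_of_lt hNmb.1 hNmb.2]
        have e2 : ((q : ℤ) * 2 ^ K + Nm) / 2 ^ K = q := by
          rw [add_comm, Int.add_mul_ediv_right _ _ hPK.ne', Int.ediv_eq_zero_of_lt hNmb.1 hNmb.2,
            zero_add]
        rw [e1, e2]
        refine ⟨hNlow i h1 h2 hir, fun h h3 h4 => ?_⟩
        rw [hTlow i h1 h2 hir]
        exact (hq h h3 h4).1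
      · rw [if_neg hir]
        have hN1 : Nm ≠ 2 ^ K - 1 := fun h => hcase ⟨by omega, h⟩
        have hN2 : Nm + 1 < 2 ^ K := by
          have := hNmb.2
          omega
        have hCr : cC x a r 0 = true := by rw [hr r hr1 (by omega)]; simp
        have hCrK : cC x a r K = false :=
          C_false_of_N H (by rw [hNlow r hr1 (by omega) le_rfl]; exact hN1)
        have hNr1 : N (bB x a) (r + 1) K = Nm + 1 := by
          have := N_step H r K
          rw [hCr, hCrK, z_true, z_false, hNlow r hr1 (by omega) le_rfl] at this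
          linarith
        have e1 : ((q : ℤ) * 2 ^ K + Nm + 1) % 2 ^ K = Nm + 1 := by
          rw [add_assoc, add_comm, Int.add_mul_emod_self_right,
            Int.emod_eq_of_lt (by linarith [hNmb.1]) hN2]
        have e2 : ((q : ℤ) * 2 ^ K + Nm + 1) / 2 ^ K = q := by
          rw [add_assoc, add_comm, Int.add_mul_ediv_right _ _ hPK.ne',
            Int.ediv_eq_zero_of_lt (by linarith [hNmb.1]) hN2, zero_add]
        rw [e1, e2]
        refine ⟨(hNhigh i h2 (by omega)).trans hNr1, fun h h3 h4 => ?_⟩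
        rw [hThigh i h2 (by omega), H.r2 r K h hCrK, hTlow r hr1 (by omega) le_rfl]
        exact (hq h h3 h4).1
  -- the position in the model
  set K' := 2 * L + 3 with hK'
  have hP1 : K' < 2 ^ K' := Nat.lt_two_pow_self
  have hP2 : (K' : ℤ) < 2 ^ K' := by exact_mod_cast hP1
  set P : ℤ := 2 ^ K' with hP
  have hP3 : 2 * (L : ℤ) + 3 < P := by rw [hK'] at hP2; push_cast at hP2; exact hP2
  set R : ℤ := (Q + 1) * P - (r + 1) with hR
  have hD : ∀ i : ℤ, -(L : ℤ) ≤ i → i ≤ L + 1 → D (i + R) K' = if i ≤ r then Q else Q + 1 := by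
    intro i h1 h2
    by_cases hir : i ≤ r
    · rw [if_pos hir]
      have e : i + R = Q * 2 ^ K' + (P + i - (r + 1)) := by rw [hR, ← hP]; ring
      rw [e]
      exact D_block _ _ _ (by linarith) (by linarith)
    · rw [if_neg hir]
      have e : i + R = (Q + 1) * 2 ^ K' + (i - (r + 1)) := by rw [hR, ← hP]; ring
      rw [e]
      exact D_block _ _ _ (by omega) (by linarith)
  refine ⟨R, L + K', off, ?_⟩
  intro i j h h1 h2 h3 h4 h5 h6
  have Hs := Hm.shift K'
  have hC0 : cC x a i 0 = Cn (i + R) (K' + 0) := by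
    rw [hr i h1 h2, add_zero]
    unfold Cn
    rw [add_right_comm, hD i h1 (by omega), hD (i + 1) (by omega) (by omega), decide_eq_decide]
    constructor
    · intro h7
      subst h7
      rw [if_neg (by omega), if_pos le_rfl]; omega
    · intro h7
      by_contra h8
      apply h7
      by_cases h9 : i ≤ r
      · rw [if_pos h9, if_pos (by omega)]
      · rw [if_neg h9, if_neg (by omega)]
  have hNN : N (bB x a) i K = N (fun i k => Bn i (K' + k)) (i + R) K := by
    rw [N_model, hD i h1 (by omega)]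
    exact (hQ i h1 h2).1
  have hTT : ∀ h : ℤ, -((3 * L + 1 : ℕ) : ℤ) ≤ h → h ≤ ((3 * L + 1 : ℕ) : ℤ) →
      tT x a i K h = Tn n (i + R) (K' + K) (h + off) := by
    intro h h7 h8
    unfold Tn
    rw [D_add, hD i h1 (by omega)]
    exact (hQ i h1 h2).2 h h7 h8
  have hBB := bits_eq hNN
  have hCC := det H Hs (i := i) (i' := i + R) (K := K) hC0 hNN
  have hTd := detT H Hs hNN hTT
  obtain ⟨k, hk⟩ := Int.eq_ofNat_of_zero_le (a := j + L) (by omega)
  have hj : j = a + k := by rw [ha, ← hk]; ring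
  have hkK : k < K := by omega
  have e1 : j + (L + K') = ((K' + k : ℕ) : ℤ) := by push_cast; rw [← hk]; ring
  rw [e1, xn_nonneg]
  apply Cell.ext'
  · rw [hv.s_eq, hs]; rfl
  · rw [hv.b_eq, hj]
    exact hBB k hkK
  · rw [hv.c_eq, hj]
    exact hCC k hkK.le
  · have := hTd (K - k) (by omega) h (by push_cast [Nat.cast_sub hkK.le]; omega)
      (by push_cast [Nat.cast_sub hkK.le]; omega)
    rw [show K - (K - k) = k by omega] at this
    rw [hj]
    exact this
  · have e : j = (j - 1) + 1 := by ring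
    have h7 := (hv i (j - 1) h).gn (by rw [hv.s_eq]; exact hs _)
    rw [← e] at h7
    rw [h7]
    symm
    unfold cg
    simp only
    rw [decide_eq_false_iff_not]
    intro h8; have := h8.1; push_cast at this; omega

theorem approx {n : ℕ} {x : ℤ → ℤ → ℤ → Cell} (hv : Valid (n + 1) x) : Approx n x := by
  rcases mono_cases (fun j => cs (x 0 j 0)) (fun j hj => hv.s_mono j hj) with h | h | ⟨w, hw⟩
  · exact approx_blank hv h
  · exact approx_nowall hv h
  · apply approx_of_sh (a := 0) (b := w) (c := 0)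
    apply approx_wall (hv.sh 0 w 0)
    · unfold sh
      have := hw (-1 + w)
      simp only [add_zero]
      rw [this, decide_eq_false_iff_not]
      omega
    · unfold sh
      have := hw (0 + w)
      simp only [add_zero]
      rw [this, decide_eq_true_iff]
      omega

/-- every configuration of level `n` is a limit of translates of the model of level `n` -/
theorem approx' {n : ℕ} {x : ℤ → ℤ → ℤ → Cell} (hv : Valid n x) : Approx n x := by
  by_cases h : Valid (n + 1) x
  · exact approx h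
  · obtain ⟨a, b, c, he⟩ := exact_translate hv h
    apply approx_of_sh (a := a) (b := b) (c := c)
    intro L
    refine ⟨0, 0, 0, fun i j k _ _ _ _ _ _ => ?_⟩
    rw [he, add_zero, add_zero, add_zero]

end Pool.Agent.P8H73.CH
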