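import Pool.Agent.P8H73.CH.Half

namespace Pool.Agent.P8H73.CH

/-- A cell carries five bits: side, bit, carry, below the surface, base. -/
abbrev Cell := Bool × Bool × Bool × Bool × Bool

def cs (a : Cell) : Bool := a.1
def cb (a : Cell) : Bool := a.2.1
def cc (a : Cell) : Bool := a.2.2.1
def ct (a : Cell) : Bool := a.2.2.2.1
def cg (a : Cell) : Bool := a.2.2.2.2

theorem Cell.ext' {a a' : Cell} (h1 : cs a = cs a') (h2 : cb a = cb a') (h3 : cc a = cc a')
    (h4 : ct a = ct a') (h5 : cg a = cg a') : a = a' :=
  Prod.ext h1 (Prod.ext h2 (Prod.ext h3 (Prod.ext h4 h5)))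

/-- The local rule, in terms of the cell `a` and of its neighbours. -/
structure Rule (a ai aj ah aih ajh aij ajn : Cell) : Prop where
  s1 : cs ai = cs a
  s2 : cs ah = cs a
  s3 : cs a = true → cs aj = true
  bl : cs a = false → a = (false, false, false, false, false)
  bh : cb ah = cb a
  ch : cc ah = cc a
  cw : cs a = false → cs aj = true → cc aj = true
  cn : cs a = true → cc aj = (cc a && cb a)
  bx : cs a = true → cb ai = xor (cb a) (cc a)
  th : ct ah = true → ct a = true
  r1a : cs a = true → cb a = false → ct a = ct aj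
  r1b : cs a = true → cb a = true → ct ah = ct aj
  r2 : cs a = true → cc a = false → ct ai = ct a
  r3 : cs a = true → cc a = true → ct aih = true → ct a = true
  gn : cs a = true → cg aj = false
  gh : cs a = false → cs aj = true → cg aj = true → cg ajh = true
  gi : cs a = false → cs aj = true → cg aij = cg aj
  gt : cs a = false → cs aj = true → cg aj = false → ct ajn = true

/-- Configurations satisfying the local rule everywhere. -/
def Valid (n : ℕ) (x : ℤ → ℤ → ℤ → Cell) : Prop :=
  ∀ i j h, Rule (x i j h) (x (i + 1) j h) (x i (j + 1) h) (x i j (h + 1)) (x (i + 1) j (h + 1))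
    (x i (j + 1) (h + 1)) (x (i + 1) (j + 1) h) (x i (j + 1) (h + n))

/-- The model configuration of level `n`. -/
def xn (n : ℕ) (i j h : ℤ) : Cell :=
  if j < 0 then (false, false, false, false, false)
  else (true, Bn i j.toNat, Cn i j.toNat, Tn n i j.toNat h, decide (j = 0 ∧ 0 ≤ h))

def sh (a b c : ℤ) (x : ℤ → ℤ → ℤ → Cell) : ℤ → ℤ → ℤ → Cell := fun i j h =>
  x (i + a) (j + b) (h + c)

theorem Valid.sh {n : ℕ} {x : ℤ → ℤ → ℤ → Cell} (hv : Valid n x) (a b c : ℤ) :
    Valid n (sh a b c x) := by
  intro i j h
  have := hv (i + a) (j + b) (h + c)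
  unfold CH.sh
  rw [add_right_comm i 1 a, add_right_comm j 1 b, add_right_comm h 1 c,
    add_right_comm h (n : ℤ) c]
  exact this

theorem const_of_succ {α : Type} (f : ℤ → α) (h : ∀ i, f (i + 1) = f i) (i : ℤ) : f i = f 0 := by
  induction i with
  | zero => rfl
  | succ i ih => rw [h]; exact ih
  | pred i ih =>
    have := h (-(i : ℤ) - 1)
    rw [sub_add_cancel] at this
    rw [← this]; exact ih

theorem mono_of_succ (f : ℤ → Bool) (h : ∀ i, f i = true → f (i + 1) = true) {i j : ℤ}
    (hij : i ≤ j) (hi : f i = true) : f j = true := by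
  obtain ⟨m, rfl⟩ := Int.le.dest hij
  clear hij
  induction m with
  | zero => simpa using hi
  | succ m ih =>
    have e : i + ((m + 1 : ℕ) : ℤ) = (i + m) + 1 := by push_cast; ring
    rw [e]; exact h _ ih

theorem anti_of_succ (f : ℤ → Bool) (h : ∀ i, f (i + 1) = true → f i = true) {i j : ℤ}
    (hij : i ≤ j) (hj : f j = true) : f i = true := by
  obtain ⟨m, rfl⟩ := Int.le.dest hij
  clear hij
  induction m with
  | zero => simpa using hj
  | succ m ih =>
    have e : i + ((m + 1 : ℕ) : ℤ) = (i + m) + 1 := by push_cast; ring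
    rw [e] at hj; exact ih (h _ hj)

/-- a monotone `0/1` sequence is constant or a threshold -/
theorem mono_cases (f : ℤ → Bool) (h : ∀ i, f i = true → f (i + 1) = true) :
    (∀ i, f i = false) ∨ (∀ i, f i = true) ∨ ∃ w, ∀ i, f i = decide (w ≤ i) := by
  by_cases h0 : ∀ i, f i = false
  · exact Or.inl h0
  by_cases h1 : ∀ i, f i = true
  · exact Or.inr (Or.inl h1)
  right; right
  push Not at h0 h1
  obtain ⟨a, ha⟩ := h0
  obtain ⟨b, hb⟩ := h1
  have ha' : f a = true := by simpa using ha
  have hb' : f b = false := by simpa using hb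
  obtain ⟨w, hw1, hw2⟩ := Int.exists_least_of_bdd (P := fun i => f i = true)
    ⟨b, fun z hz => by
      by_contra hcon
      have := mono_of_succ f h (i := z) (j := b) (by omega) hz
      rw [hb'] at this; exact absurd this (by simp)⟩ ⟨a, ha'⟩
  refine ⟨w, fun i => ?_⟩
  rw [Bool.eq_iff_iff, decide_eq_true_iff]
  exact ⟨fun hi => hw2 i hi, fun hi => mono_of_succ f h hi hw1⟩

section
variable {n : ℕ} {x : ℤ → ℤ → ℤ → Cell}

theorem Valid.s_eq (hv : Valid n x) (i j h : ℤ) : cs (x i j h) = cs (x 0 j 0) := by
  have h1 : cs (x i j h) = cs (x i j 0) :=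
    const_of_succ (fun h => cs (x i j h)) (fun h => (hv i j h).s2) h
  have h2 : cs (x i j 0) = cs (x 0 j 0) :=
    const_of_succ (fun i => cs (x i j 0)) (fun i => (hv i j 0).s1) i
  rw [h1, h2]

theorem Valid.b_eq (hv : Valid n x) (i j h : ℤ) : cb (x i j h) = cb (x i j 0) :=
  const_of_succ (fun h => cb (x i j h)) (fun h => (hv i j h).bh) h

theorem Valid.c_eq (hv : Valid n x) (i j h : ℤ) : cc (x i j h) = cc (x i j 0) :=
  const_of_succ (fun h => cc (x i j h)) (fun h => (hv i j h).ch) h

theorem Valid.s_mono (hv : Valid n x) (j : ℤ) (h : cs (x 0 j 0) = true) :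
    cs (x 0 (j + 1) 0) = true := (hv 0 j 0).s3 h

theorem Valid.blank (hv : Valid n x) {i j h : ℤ} (hs : cs (x 0 j 0) = false) :
    x i j h = (false, false, false, false, false) :=
  (hv i j h).bl (by rw [hv.s_eq]; exact hs)

/-- bits, carries and heights from column `a` on -/
def bB (x : ℤ → ℤ → ℤ → Cell) (a : ℤ) (i : ℤ) (k : ℕ) : Bool := cb (x i (a + k) 0)
def cC (x : ℤ → ℤ → ℤ → Cell) (a : ℤ) (i : ℤ) (k : ℕ) : Bool := cc (x i (a + k) 0)
def tT (x : ℤ → ℤ → ℤ → Cell) (a : ℤ) (i : ℤ) (k : ℕ) (h : ℤ) : Bool := ct (x i (a + k) h)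

theorem Valid.half (hv : Valid n x) {a : ℤ} (ha : cs (x 0 a 0) = true) :
    Half (bB x a) (cC x a) (tT x a) := by
  have hs : ∀ (i : ℤ) (k : ℕ) (h : ℤ), cs (x i (a + k) h) = true := by
    intro i k h
    rw [hv.s_eq]
    exact mono_of_succ (fun j => cs (x 0 j 0)) (fun j hj => hv.s_mono j hj)
      (i := a) (j := a + k) (by omega) ha
  have e : ∀ k : ℕ, a + ((k + 1 : ℕ) : ℤ) = a + k + 1 := by intro k; push_cast; ring
  constructor
  · intro i k
    unfold cC bB
    rw [e]
    exact (hv i (a + k) 0).cn (hs i k 0)
  · intro i k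
    exact (hv i (a + k) 0).bx (hs i k 0)
  · intro i k h
    exact (hv i (a + k) h).th
  · intro i k h
    unfold tT bB
    rw [e]
    cases hb : cb (x i (a + k) 0) with
    | false =>
      rw [z_false, sub_zero]
      exact (hv i (a + k) h).r1a (hs i k h) (by rw [hv.b_eq]; exact hb)
    | true =>
      rw [z_true]
      have := (hv i (a + k) (h - 1)).r1b (hs i k (h - 1)) (by rw [hv.b_eq]; exact hb)
      rw [sub_add_cancel] at this
      exact this
  · intro i k h hc
    exact (hv i (a + k) h).r2 (hs i k h) (by rw [hv.c_eq]; exact hc)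
  · intro i k h hc
    exact (hv i (a + k) h).r3 (hs i k h) (by rw [hv.c_eq]; exact hc)

theorem Valid.wall_c (hv : Valid n x) {a : ℤ} (h0 : cs (x 0 (a - 1) 0) = false)
    (h1 : cs (x 0 a 0) = true) (i : ℤ) : cC x a i 0 = true := by
  unfold cC
  have := (hv i (a - 1) 0).cw (by rw [hv.s_eq]; exact h0)
    (by rw [hv.s_eq, sub_add_cancel]; exact h1)
  rw [sub_add_cancel] at this
  simpa using this

theorem Valid.pred (hv : Valid (n + 1) x) : Valid n x := by
  intro i j h
  have H := hv i j h
  have hth := (hv i (j + 1) (h + n)).th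
  refine ⟨H.s1, H.s2, H.s3, H.bl, H.bh, H.ch, H.cw, H.cn, H.bx, H.th, H.r1a, H.r1b, H.r2, H.r3,
    H.gn, H.gh, H.gi, fun h1 h2 h3 => hth ?_⟩
  have h4 := H.gt h1 h2 h3
  push_cast at h4
  rw [← add_assoc] at h4
  exact h4

end

theorem xn_neg {n : ℕ} {i j h : ℤ} (hj : j < 0) : xn n i j h = (false, false, false, false, false) := by
  simp [xn, hj]

theorem xn_nonneg {n : ℕ} {i h : ℤ} (k : ℕ) : xn n i k h =
    (true, Bn i k, Cn i k, Tn n i k h, decide ((k : ℤ) = 0 ∧ 0 ≤ h)) := by
  have : ¬ ((k : ℤ) < 0) := by omega
  simp [xn, this]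

theorem xn_valid (n : ℕ) : Valid n (xn n) := by
  intro i j h
  have H := half_model n
  rcases lt_or_ge j 0 with hj | hj
  · have hj0 : xn n i j h = (false, false, false, false, false) := xn_neg hj
    have hji : xn n (i + 1) j h = (false, false, false, false, false) := xn_neg hj
    have hjh : xn n i j (h + 1) = (false, false, false, false, false) := xn_neg hj
    have hjih : xn n (i + 1) j (h + 1) = (false, false, false, false, false) := xn_neg hj
    rw [hj0, hji, hjh, hjih]
    rcases lt_or_ge (j + 1) 0 with hj1 | hj1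
    · rw [xn_neg hj1, xn_neg hj1, xn_neg hj1, xn_neg hj1]
      constructor <;> simp [cs, cb, cc, ct, cg]
    · have e : j + 1 = ((0 : ℕ) : ℤ) := by push_cast; omega
      rw [e, xn_nonneg, xn_nonneg, xn_nonneg, xn_nonneg]
      constructor <;> simp [cs, cb, cc, ct, cg, Cn_zero]
      · intro h1; omega
      · intro h1
        unfold Tn Sg
        rw [decide_eq_true_iff]
        right; omega
  · obtain ⟨k, rfl⟩ := Int.eq_ofNat_of_zero_le hj
    have e : (k : ℤ) + 1 = ((k + 1 : ℕ) : ℤ) := by push_cast; ring
    rw [e]
    simp only [xn_nonneg]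
    constructor <;> simp only [cs, cb, cc, ct, cg]
    · intro h; exact h
    · intro h; exact absurd h (by simp)
    · intro h; exact absurd h (by simp)
    · intro _; exact H.cn i k
    · intro _; exact H.bx i k
    · intro h1; exact H.th i k h h1
    · intro _ hb
      have := H.r1 i k h
      rw [hb, z_false, sub_zero] at this
      exact this
    · intro _ hb
      have := H.r1 i k (h + 1)
      rw [hb, z_true, add_sub_cancel_right] at this
      exact this
    · intro _ hc; exact H.r2 i k h hc
    · intro _ hc h1; exact H.r3 i k h hc h1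
    · intro _
      rw [decide_eq_false_iff_not]
      intro h1; have := h1.1; omega
    · intro h; exact absurd h (by simp)
    · intro h; exact absurd h (by simp)
    · intro h; exact absurd h (by simp)

theorem xn_not_valid (n : ℕ) : ¬ Valid (n + 1) (xn n) := by
  intro hv
  have H := hv 0 (-1) (-1)
  have e1 : xn n 0 (-1) (-1) = (false, false, false, false, false) := xn_neg (by norm_num)
  have e2 : xn n 0 (-1 + 1) (-1) = (true, Bn 0 0, Cn 0 0, Tn n 0 0 (-1), decide (((0 : ℕ) : ℤ) = 0 ∧ (0 : ℤ) ≤ -1)) := by
    rw [show (-1 + 1 : ℤ) = ((0 : ℕ) : ℤ) by norm_num, xn_nonneg]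
  have e3 : xn n 0 (-1 + 1) (-1 + ((n + 1 : ℕ) : ℤ)) =
      (true, Bn 0 0, Cn 0 0, Tn n 0 0 n, decide (((0 : ℕ) : ℤ) = 0 ∧ (0 : ℤ) ≤ n)) := by
    rw [show (-1 + 1 : ℤ) = ((0 : ℕ) : ℤ) by norm_num, show (-1 + ((n + 1 : ℕ) : ℤ)) = (n : ℤ) by push_cast; ring, xn_nonneg]
  rw [e1, e2, e3] at H
  have h1 := H.gt rfl rfl (by simp [cg])
  simp [ct, Tn, Sg, D_zero, ds_zero] at h1

/-! ### The exact case -/

theorem zero_bits {B : ℤ → ℕ → Bool} {i : ℤ} {K : ℕ} (h : N B i K = 0) : ∀ k < K, B i k = false := by
  have h2 : N (fun _ _ => false) 0 K = 0 := by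
    clear h
    induction K with
    | zero => rfl
    | succ K ih => unfold N; rw [ih, z_false]; ring
  exact bits_eq (B' := fun _ _ => false) (i' := 0) (h.trans h2.symm)

theorem N_zero_of_bits {B : ℤ → ℕ → Bool} {i : ℤ} {K : ℕ} (h : ∀ k < K, B i k = false) :
    N B i K = 0 := by
  induction K with
  | zero => rfl
  | succ K ih =>
    unfold N
    rw [ih (fun k hk => h k (by omega)), h K (by omega), z_false]; ring

theorem T_zero_bits {B C : ℤ → ℕ → Bool} {T : ℤ → ℕ → ℤ → Bool} (H : Half B C T) {i : ℤ} {K : ℕ}
    (h : ∀ k < K, B i k = false) (a : ℤ) : T i K a = T i 0 a := by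
  induction K with
  | zero => rfl
  | succ K ih =>
    rw [← ih (fun k hk => h k (by omega)), H.r1 i K, h K (by omega), z_false, sub_zero]

theorem exact {n : ℕ} {y : ℤ → ℤ → ℤ → Cell} (hv : Valid n y) (hs0 : cs (y 0 (-1) 0) = false)
    (hs1 : cs (y 0 0 0) = true) (hg : cg (y 0 0 (-1)) = false) (ht : ct (y 0 0 n) = false) :
    y = xn n := by
  have hsneg : ∀ j : ℤ, j < 0 → cs (y 0 j 0) = false := by
    intro j hj
    by_contra hcon
    have := mono_of_succ (fun j => cs (y 0 j 0)) (fun j hj => hv.s_mono j hj)
      (i := j) (j := -1) (by omega) (by simpa using hcon)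
    rw [hs0] at this; exact absurd this (by simp)
  have hspos : ∀ j : ℤ, 0 ≤ j → cs (y 0 j 0) = true := fun j hj =>
    mono_of_succ (fun j => cs (y 0 j 0)) (fun j hj => hv.s_mono j hj) (i := 0) (j := j) hj hs1
  -- rules at the wall
  have wall1 : ∀ i h, cs (y i (-1) h) = false := fun i h => by rw [hv.s_eq]; exact hs0
  have wall2 : ∀ i h, cs (y i (-1 + 1) h) = true := fun i h => by
    rw [hv.s_eq, neg_add_cancel]; exact hs1
  have gi : ∀ i h, cg (y i 0 h) = cg (y 0 0 h) := by
    intro i h
    refine const_of_succ (fun i => cg (y i 0 h)) (fun i => ?_) i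
    have := (hv i (-1) h).gi (wall1 i h) (wall2 i h)
    rw [neg_add_cancel] at this; exact this
  have gh : ∀ h, cg (y 0 0 h) = true → cg (y 0 0 (h + 1)) = true := by
    intro h hh
    have := (hv 0 (-1) h).gh (wall1 0 h) (wall2 0 h)
    rw [neg_add_cancel] at this; exact this hh
  have gt : ∀ i h, cg (y i 0 h) = false → ct (y i 0 (h + n)) = true := by
    intro i h hh
    have := (hv i (-1) h).gt (wall1 i h) (wall2 i h)
    rw [neg_add_cancel] at this; exact this hh
  have g0 : cg (y 0 0 0) = true := by
    by_contra hcon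
    have := gt 0 0 (by simpa using hcon)
    rw [zero_add, ht] at this; exact absurd this (by simp)
  have hgall : ∀ i h, cg (y i 0 h) = decide (0 ≤ h) := by
    intro i h
    rw [gi, Bool.eq_iff_iff, decide_eq_true_iff]
    constructor
    · intro hh
      by_contra hcon
      have := mono_of_succ (fun h => cg (y 0 0 h)) gh (i := h) (j := -1) (by omega) hh
      rw [hg] at this; exact absurd this (by simp)
    · intro hh
      exact mono_of_succ (fun h => cg (y 0 0 h)) gh (i := 0) (j := h) hh g0
  have H : Half (bB y 0) (cC y 0) (tT y 0) := hv.half hs1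
  have Hm := half_model n
  have hC0 : ∀ i, cC y 0 i 0 = true := hv.wall_c (by simpa using hs0) hs1
  have hT0 : ∀ (i h : ℤ), h < n → tT y 0 i 0 h = true := by
    intro i h hh
    unfold tT
    have := gt i (h - n) (by rw [hgall, decide_eq_false_iff_not]; omega)
    rw [sub_add_cancel] at this
    simpa using this
  have hT0n : tT y 0 0 0 n = false := by unfold tT; simpa using ht
  -- all bits of row 0 vanish
  have hbits : ∀ k, bB y 0 0 k = false := by
    intro k
    induction k using Nat.strong_induction_on with
    | _ k ih =>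
      by_contra hcon
      have hbk : bB y 0 0 k = true := by simpa using hcon
      have hN0 : N (bB y 0) 0 (k + 1) = 2 ^ k := by
        unfold N
        rw [N_zero_of_bits ih, hbk, z_true]; ring
      have hpow : (0 : ℤ) < 2 ^ k := by positivity
      have hNi : ∀ i : ℤ, -2 ^ k ≤ i → i < 0 → N (bB y 0) i (k + 1) = 2 ^ k + i := by
        intro i h1 h2
        rw [N_mod H hC0, hN0]
        apply Int.emod_eq_of_lt
        · linarith
        · rw [pow_succ]; linarith
      have h1 : N (bB y 0) (-2 ^ k) (k + 1) = 0 := by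
        rw [hNi _ le_rfl (by linarith)]; ring
      have h2 := T_zero_bits H (zero_bits h1) (n - 1)
      have h3 : tT y 0 0 (k + 1) (n - 1) = tT y 0 (-2 ^ k) (k + 1) (n - 1) := by
        apply T_const H (by linarith)
        intro i h4 h5
        apply C_false_of_N H
        rw [hNi i h4 h5, pow_succ]
        intro h6
        linarith
      have h4 : tT y 0 0 k n = tT y 0 0 (k + 1) (n - 1) := by
        rw [H.r1, hbk, z_true]
      have h5 : tT y 0 0 k n = tT y 0 0 0 n := T_zero_bits H ih n
      rw [← h5, h4, h3, h2, hT0 _ _ (by omega)] at hT0n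
      exact absurd hT0n (by simp)
  have hN : ∀ i K, N (bB y 0) i K = i % 2 ^ K := by
    intro i K
    rw [N_mod H hC0, N_zero_of_bits (fun k _ => hbits k), zero_add]
  have hNm : ∀ i K, N Bn i K = i % 2 ^ K := by
    intro i K
    have := N_model i K 0
    simp only [zero_add, D_zero] at this
    exact this
  have hB : ∀ i k, bB y 0 i k = Bn i k := fun i k =>
    bits_eq (K := k + 1) ((hN i (k + 1)).trans (hNm i (k + 1)).symm) k (by omega)
  have hC : ∀ i k, cC y 0 i k = Cn i k := fun i k =>
    det H Hm (K := k) (by rw [hC0, Cn_zero]) ((hN i k).trans (hNm i k).symm) k le_rfl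
  have hT : ∀ i k h, tT y 0 i k h = Tn n i k h := by
    intro i k h
    rcases lt_or_ge i 0 with hi | hi
    · -- negative rows: everything is below the surface
      have hhigh : ∀ l : ℕ, (-i).toNat ≤ l → ∀ h, tT y 0 i l h = true := by
        intro l hl h
        have hD : ∀ m : ℕ, D i (l + m) = -1 := by
          intro m
          have h1 : (l + m : ℕ) < 2 ^ (l + m) := Nat.lt_two_pow_self
          have h2 : ((l + m : ℕ) : ℤ) < 2 ^ (l + m) := by exact_mod_cast h1
          have e : i = -1 * 2 ^ (l + m) + (2 ^ (l + m) + i) := by ring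
          rw [e]
          apply D_block
          · push_cast at h2; omega
          · linarith
        have hshift : ∀ m : ℕ, tT y 0 i l h = tT y 0 i (l + m) (h - m) := by
          intro m
          induction m with
          | zero => simp
          | succ m ih =>
            rw [ih, H.r1]
            have : bB y 0 i (l + m) = true := by
              rw [hB]; unfold Bn; rw [hD]; rfl
            rw [this, z_true]
            congr 1
            push_cast; ring
        have hrow : ∀ m : ℕ, tT y 0 i (l + m) (h - m) = tT y 0 (-2 ^ (l + m)) 0 (h - m) := by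
          intro m
          have h1 : (l + m : ℕ) < 2 ^ (l + m) := Nat.lt_two_pow_self
          have h2 : ((l + m : ℕ) : ℤ) < 2 ^ (l + m) := by exact_mod_cast h1
          have h3 : N (bB y 0) (-2 ^ (l + m)) (l + m) = 0 := by
            rw [hN]; simp
          rw [← T_zero_bits H (zero_bits h3)]
          apply T_const H
          · push_cast at h2; omega
          · intro i' h4 h5
            apply C_false_of_N H
            rw [hN]
            have : i' % 2 ^ (l + m) = i' + 2 ^ (l + m) := by
              rw [← Int.add_emod_right]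
              apply Int.emod_eq_of_lt
              · linarith
              · linarith
            rw [this]
            intro h6
            omega
        rw [hshift (h - n + 1).toNat, hrow]
        apply hT0
        have := Int.self_le_toNat (h - n + 1)
        omega
      have hall : ∀ (m : ℕ) (k : ℕ) (h : ℤ), (-i).toNat ≤ k + m → tT y 0 i k h = true := by
        intro m
        induction m with
        | zero => intro k h hk; exact hhigh k (by omega) h
        | succ m ih =>
          intro k h hk
          rw [H.r1]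
          exact ih _ _ (by omega)
      rw [hall (-i).toNat k h (by omega)]
      unfold Tn Sg
      symm
      rw [decide_eq_true_iff]
      left
      by_contra hcon
      have := (D_nonneg i k).1 (by omega)
      omega
    · -- nonnegative rows
      set K := k + i.toNat + 1 with hK
      have h1 : (K : ℕ) < 2 ^ K := Nat.lt_two_pow_self
      have h2 : (K : ℤ) < 2 ^ K := by exact_mod_cast h1
      have hiK : i < 2 ^ K := by
        have : i ≤ (K : ℤ) := by rw [hK]; push_cast; omega
        linarith
      have hDK : D i K = 0 := by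
        have e : i = 0 * 2 ^ K + i := by ring
        rw [e]; exact D_block 0 i K hi hiK
      have hTK : ∀ h, tT y 0 i K h = Tn n i K (h + 0) := by
        intro h
        have e1 : tT y 0 i K h = tT y 0 0 K h := by
          apply T_const H hi
          intro i' h3 h4
          apply C_false_of_N H
          rw [hN, Int.emod_eq_of_lt h3 (by linarith)]
          intro h5; omega
        rw [e1, T_zero_bits H (fun k _ => hbits k)]
        unfold Tn Sg
        rw [hDK, Bool.eq_iff_iff, decide_eq_true_iff, Int.toNat_zero, ds_zero]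
        constructor
        · intro hh
          right
          by_contra hcon
          have := anti_of_succ (fun h => tT y 0 0 0 h) (fun h => H.th 0 0 h) (i := n) (j := h)
            (by push_cast at hcon; omega) hh
          rw [hT0n] at this; exact absurd this (by simp)
        · rintro (hh | hh)
          · omega
          · exact hT0 0 h (by push_cast at hh; omega)
      have := detT H Hm (i := i) (i' := i) (K := K) ((hN i K).trans (hNm i K).symm)
        (M := |h| + K) (off := 0) (fun h _ _ => hTK h) (K - k) (by omega) h ?_ ?_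
      · rw [show K - (K - k) = k by omega, add_zero] at this
        exact this
      · have := neg_abs_le h
        have h3 : ((K - k : ℕ) : ℤ) ≤ K := by omega
        linarith
      · have := le_abs_self h
        have h3 : ((K - k : ℕ) : ℤ) ≤ K := by omega
        linarith
  funext i j h
  rcases lt_or_ge j 0 with hj | hj
  · rw [xn_neg hj, hv.blank (hsneg j hj)]
  · obtain ⟨k, rfl⟩ := Int.eq_ofNat_of_zero_le hj
    rw [xn_nonneg]
    apply Cell.ext'
    · rw [hv.s_eq, hspos _ hj]; rfl
    · rw [hv.b_eq]
      have := hB i k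
      unfold bB at this
      rw [zero_add] at this
      exact this
    · rw [hv.c_eq]
      have := hC i k
      unfold cC at this
      rw [zero_add] at this
      exact this
    · have := hT i k h
      unfold tT at this
      rw [zero_add] at this
      exact this
    · rcases Nat.eq_zero_or_pos k with hk | hk
      · subst hk
        have := hgall i h
        simp [cg] at this ⊢
        exact this
      · have e : (k : ℤ) = ((k : ℤ) - 1) + 1 := by ring
        have h1 := (hv i ((k : ℤ) - 1) h).gn (by rw [hv.s_eq]; exact hspos _ (by omega))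
        rw [← e] at h1
        rw [h1]
        symm
        unfold cg
        simp only
        rw [decide_eq_false_iff_not]
        intro h2; have := h2.1; omega

/-- a configuration of level `n` but not of level `n + 1` is a translate of the model -/
theorem exact_translate {n : ℕ} {x : ℤ → ℤ → ℤ → Cell} (hv : Valid n x)
    (hnv : ¬ Valid (n + 1) x) : ∃ a b c, sh a b c x = xn n := by
  unfold Valid at hnv
  push Not at hnv
  obtain ⟨i, j, h, hr⟩ := hnv
  have H := hv i j h
  have key : cs (x i j h) = false ∧ cs (x i (j + 1) h) = true ∧ cg (x i (j + 1) h) = false ∧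
      ct (x i (j + 1) (h + ((n + 1 : ℕ) : ℤ))) = false := by
    by_contra hcon
    apply hr
    refine ⟨H.s1, H.s2, H.s3, H.bl, H.bh, H.ch, H.cw, H.cn, H.bx, H.th, H.r1a, H.r1b, H.r2, H.r3,
      H.gn, H.gh, H.gi, fun h1 h2 h3 => ?_⟩
    by_contra h4
    exact hcon ⟨h1, h2, h3, by simpa using h4⟩
  obtain ⟨k1, k2, k3, k4⟩ := key
  refine ⟨i, j + 1, h + 1, exact (hv.sh _ _ _) ?_ ?_ ?_ ?_⟩
  · unfold sh
    rw [show -1 + (j + 1) = j by ring, hv.s_eq, ← hv.s_eq i j h]; exact k1
  · unfold sh
    rw [show 0 + (j + 1) = j + 1 by ring, hv.s_eq, ← hv.s_eq i (j + 1) h]; exact k2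
  · unfold sh
    rw [show 0 + (j + 1) = j + 1 by ring, show -1 + (h + 1) = h by ring, zero_add]; exact k3
  · unfold sh
    rw [show 0 + (j + 1) = j + 1 by ring, show (n : ℤ) + (h + 1) = h + ((n + 1 : ℕ) : ℤ) by
      push_cast; ring, zero_add]; exact k4

end Pool.Agent.P8H73.CH
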