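import Mathlib

namespace Pool.Agent.P8H73.CH

/-! ### Binary digits of integers -/

/-- `⌊r / 2 ^ k⌋`. -/
def D (r : ℤ) (k : ℕ) : ℤ := r / 2 ^ k

theorem D_zero (r : ℤ) : D r 0 = r := by simp [D]

theorem D_add (r : ℤ) (k l : ℕ) : D r (k + l) = D (D r k) l := by
  unfold D
  rw [pow_add, Int.ediv_ediv_of_nonneg (by positivity)]

theorem D_succ (r : ℤ) (k : ℕ) : D r (k + 1) = D r k / 2 := by
  rw [D_add]; simp [D]

theorem D_next (r : ℤ) (k : ℕ) : D (r + 1) k = D r k ∨ D (r + 1) k = D r k + 1 := by
  induction k with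
  | zero => right; simp [D_zero]
  | succ k ih => rw [D_succ, D_succ]; omega

theorem D_block (q i : ℤ) (k : ℕ) (h0 : 0 ≤ i) (h1 : i < 2 ^ k) : D (q * 2 ^ k + i) k = q := by
  unfold D
  rw [add_comm, Int.add_mul_ediv_right _ _ (by positivity), Int.ediv_eq_zero_of_lt h0 h1, zero_add]

theorem D_nonneg (r : ℤ) (k : ℕ) : 0 ≤ D r k ↔ 0 ≤ r := by
  unfold D
  exact Int.ediv_nonneg_iff_of_pos (by positivity)

/-- Sum of the binary digits. -/
def ds (n : ℕ) : ℕ := (Nat.digits 2 n).sum

theorem ds_zero : ds 0 = 0 := by simp [ds]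

theorem ds_rec (n : ℕ) : ds n = n % 2 + ds (n / 2) := by
  rcases Nat.eq_zero_or_pos n with h | h
  · subst h; simp [ds]
  · unfold ds
    rw [Nat.digits_def' (by norm_num) h]
    simp

theorem ds_two_mul (n : ℕ) : ds (2 * n) = ds n := by
  rw [ds_rec]
  have h1 : 2 * n % 2 = 0 := by omega
  have h2 : 2 * n / 2 = n := by omega
  rw [h1, h2, zero_add]

theorem ds_two_mul_add_one (n : ℕ) : ds (2 * n + 1) = ds n + 1 := by
  rw [ds_rec]
  have h1 : (2 * n + 1) % 2 = 1 := by omega
  have h2 : (2 * n + 1) / 2 = n := by omega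
  rw [h1, h2, add_comm]

theorem ds_succ_le (n : ℕ) : ds (n + 1) ≤ ds n + 1 := by
  induction n using Nat.strong_induction_on with
  | _ n ih =>
    rcases Nat.even_or_odd' n with ⟨m, hm | hm⟩
    · subst hm; rw [ds_two_mul, ds_two_mul_add_one]
    · subst hm
      have h := ih m (by omega)
      have e : 2 * m + 1 + 1 = 2 * (m + 1) := by ring
      rw [e, ds_two_mul, ds_two_mul_add_one]
      omega

theorem ds_exists (t : ℕ) : ∃ u, ds u = t := by
  induction t with
  | zero => exact ⟨0, ds_zero⟩
  | succ t ih =>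
    obtain ⟨u, hu⟩ := ih
    exact ⟨2 * u + 1, by rw [ds_two_mul_add_one, hu]⟩

/-- two consecutive numbers with prescribed digit sums -/
theorem ds_pair (a t : ℕ) : ∃ q, ds q = a + t ∧ ds (q + 1) = a + 1 := by
  induction t with
  | zero =>
    obtain ⟨u, hu⟩ := ds_exists a
    exact ⟨2 * u, by rw [ds_two_mul, hu, add_zero], by rw [ds_two_mul_add_one, hu]⟩
  | succ t ih =>
    obtain ⟨q, h1, h2⟩ := ih
    refine ⟨2 * q + 1, by rw [ds_two_mul_add_one, h1]; ring, ?_⟩
    have e : 2 * q + 1 + 1 = 2 * (q + 1) := by ring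
    rw [e, ds_two_mul, h2]

/-! ### Truncated heights -/

theorem trunc (P : ℤ → Bool) (hP : ∀ h, P (h + 1) = true → P h = true) (M : ℤ) (k : ℕ) :
    ∃ A : ℤ, -M ≤ A ∧ A ≤ -M + k ∧ ∀ h, -M ≤ h → h < -M + k → (P h = true ↔ h < A) := by
  have dn : ∀ (m : ℕ) (h : ℤ), P (h + m) = true → P h = true := by
    intro m
    induction m with
    | zero => intro h hh; simpa using hh
    | succ m ih =>
      intro h hh
      apply ih
      apply hP
      have e : h + (m : ℤ) + 1 = h + ((m + 1 : ℕ) : ℤ) := by push_cast; ring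
      rw [e]; exact hh
  induction k with
  | zero => exact ⟨-M, le_refl _, by simp, fun h h1 h2 => by simp at h2; omega⟩
  | succ k ih =>
    obtain ⟨A, h1, h2, h3⟩ := ih
    by_cases hA : A = -M + k
    · cases hp : P (-M + k) with
      | true =>
        refine ⟨-M + k + 1, by omega, by push_cast; omega, fun h h4 h5 => ?_⟩
        by_cases h6 : h = -M + k
        · subst h6; simp [hp]
        · have := h3 h h4 (by push_cast at h5; omega)
          rw [this]; omega
      | false =>
        refine ⟨A, by omega, by push_cast; omega, fun h h4 h5 => ?_⟩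
        by_cases h6 : h = -M + k
        · subst h6; simp [hp, hA]
        · exact h3 h h4 (by push_cast at h5; omega)
    · refine ⟨A, h1, by push_cast; omega, fun h h4 h5 => ?_⟩
      by_cases h6 : h = -M + k
      · subst h6
        have hfA : ¬ (P A = true) := by rw [h3 A h1 (by omega)]; omega
        constructor
        · intro hh
          exfalso
          apply hfA
          have e : (-M + (k : ℤ)) = A + ((-M + k - A).toNat : ℤ) := by
            rw [Int.toNat_of_nonneg (by omega)]; ring
          rw [e] at hh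
          exact dn _ _ hh
        · intro hh; omega
      · exact h3 h h4 (by push_cast at h5; omega)

/-- the height set of the model configuration of level `n` over the value `d` -/
def Sg (n : ℕ) (d h : ℤ) : Bool := decide (d < 0 ∨ h < n + ds d.toNat)

/-- choice of the high part -/
theorem choose (Pm Pp : ℤ → Bool) (hm : ∀ h, Pm (h + 1) = true → Pm h = true)
    (hp : ∀ h, Pp (h + 1) = true → Pp h = true) (hpm : ∀ h, Pp (h + 1) = true → Pm h = true)
    (M : ℕ) (n : ℕ) (off : ℤ)
    (hlow : (M : ℤ) + n + 1 ≤ off ∨ (n - off ≤ M ∧ - (M : ℤ) ≤ n - off ∧ Pp (n - off) = true)) :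
    ∃ q : ℕ, ∀ h, -(M : ℤ) ≤ h → h ≤ M →
      Pm h = Sg n q (h + off) ∧ Pp h = Sg n (q + 1) (h + off) := by
  obtain ⟨A, hA1, hA2, hA3⟩ := trunc Pm hm M (2 * M + 1)
  obtain ⟨B, hB1, hB2, hB3⟩ := trunc Pp hp M (2 * M + 1)
  push_cast at hA2 hA3 hB2 hB3
  have hBA : B ≤ A + 1 := by
    by_contra hcon
    have h1 : Pp (B - 1) = true := (hB3 (B - 1) (by omega) (by omega)).2 (by omega)
    have h2 : Pm (B - 2) = true := hpm _ (by rw [show B - 2 + 1 = B - 1 by ring]; exact h1)
    have h3 := (hA3 (B - 2) (by omega) (by omega)).1 h2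
    omega
  have hBn : (n : ℤ) + 1 ≤ B + off := by
    rcases hlow with h | ⟨h1, h2, h3⟩
    · omega
    · have := (hB3 _ h2 (by omega)).1 h3
      omega
  obtain ⟨q, hq1, hq2⟩ := ds_pair (B + off - n - 1).toNat (A + 1 - B).toNat
  refine ⟨q, fun h h1 h2 => ⟨?_, ?_⟩⟩
  · have e := hA3 h h1 (by omega)
    rw [Bool.eq_iff_iff, e]
    unfold Sg
    rw [decide_eq_true_iff]
    have : (ds ((q : ℤ)).toNat : ℤ) = B + off - n - 1 + (A + 1 - B) := by
      rw [Int.toNat_natCast, hq1]; push_cast
      rw [Int.toNat_of_nonneg (by omega), Int.toNat_of_nonneg (by omega)]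
    rw [this]
    omega
  · have e := hB3 h h1 (by omega)
    rw [Bool.eq_iff_iff, e]
    unfold Sg
    rw [decide_eq_true_iff]
    have e2 : ((q : ℤ) + 1).toNat = q + 1 := by omega
    have : (ds ((q : ℤ) + 1).toNat : ℤ) = B + off - n - 1 + 1 := by
      rw [e2, hq2]; push_cast
      rw [Int.toNat_of_nonneg (by omega)]
    rw [this]
    omega

/-! ### Counters with a height function -/

/-- the integer `0` or `1` -/
def z (b : Bool) : ℤ := if b then 1 else 0

theorem z_true : z true = 1 := rfl
theorem z_false : z false = 0 := rfl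
theorem z_inj {a b : Bool} (h : z a = z b) : a = b := by
  cases a <;> cases b <;> simp [z] at h ⊢

/-- A counter: bits, carries and the height sets, in columns `0, 1, 2, …`. -/
structure Half (B C : ℤ → ℕ → Bool) (T : ℤ → ℕ → ℤ → Bool) : Prop where
  cn : ∀ i k, C i (k + 1) = (C i k && B i k)
  bx : ∀ i k, B (i + 1) k = xor (B i k) (C i k)
  th : ∀ i k h, T i k (h + 1) = true → T i k h = true
  r1 : ∀ i k h, T i k h = T i (k + 1) (h - z (B i k))
  r2 : ∀ i k h, C i k = false → T (i + 1) k h = T i k h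
  r3 : ∀ i k h, C i k = true → T (i + 1) k (h + 1) = true → T i k h = true

/-- the number written in the first `K` columns -/
def N (B : ℤ → ℕ → Bool) (i : ℤ) : ℕ → ℤ
  | 0 => 0
  | K + 1 => N B i K + 2 ^ K * z (B i K)

theorem N_bd (B : ℤ → ℕ → Bool) (i : ℤ) (K : ℕ) : 0 ≤ N B i K ∧ N B i K < 2 ^ K := by
  induction K with
  | zero => simp [N]
  | succ K ih =>
    obtain ⟨h1, h2⟩ := ih
    unfold N
    rw [pow_succ]
    cases B i K <;> simp only [z_true, z_false] <;> constructor <;> linarith

theorem bits_eq {B B' : ℤ → ℕ → Bool} {i i' : ℤ} {K : ℕ} (h : N B i K = N B' i' K) :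
    ∀ k < K, B i k = B' i' k := by
  induction K with
  | zero => intro k hk; omega
  | succ K ih =>
    unfold N at h
    obtain ⟨h1, h2⟩ := N_bd B i K
    obtain ⟨h3, h4⟩ := N_bd B' i' K
    have key : B i K = B' i' K := by
      cases hb : B i K <;> cases hb' : B' i' K <;> rw [hb, hb'] at h <;>
        simp only [z_true, z_false] at h
      · linarith
      · linarith
    rw [key] at h
    intro k hk
    rcases Nat.lt_succ_iff_lt_or_eq.1 hk with hk | hk
    · exact ih (by linarith) k hk
    · subst hk; exact key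

theorem N_congr {B B' : ℤ → ℕ → Bool} {i i' : ℤ} {K : ℕ} (h : ∀ k < K, B i k = B' i' k) :
    N B i K = N B' i' K := by
  induction K with
  | zero => rfl
  | succ K ih =>
    unfold N
    rw [ih (fun k hk => h k (by omega)), h K (by omega)]

variable {B C : ℤ → ℕ → Bool} {T : ℤ → ℕ → ℤ → Bool}

theorem N_step (H : Half B C T) (i : ℤ) (K : ℕ) :
    N B (i + 1) K + 2 ^ K * z (C i K) = N B i K + z (C i 0) := by
  induction K with
  | zero => simp [N]
  | succ K ih =>
    unfold N
    have h1 := H.cn i K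
    have h2 := H.bx i K
    rw [h1, h2, pow_succ]
    cases hb : B i K <;> cases hc : C i K <;> rw [hc] at ih <;>
      simp only [z_true, z_false, Bool.xor_false, Bool.xor_true, Bool.and_true, Bool.and_false,
        Bool.not_true, Bool.not_false] at ih ⊢ <;> linarith

theorem C_true (H : Half B C T) {i : ℤ} {K : ℕ} (h : C i K = true) :
    C i 0 = true ∧ N B i K = 2 ^ K - 1 := by
  induction K with
  | zero => exact ⟨h, by simp [N]⟩
  | succ K ih =>
    rw [H.cn, Bool.and_eq_true] at h
    obtain ⟨h1, h2⟩ := ih h.1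
    refine ⟨h1, ?_⟩
    unfold N
    rw [h2, h.2, z_true, pow_succ]; ring

theorem C_false_of_N (H : Half B C T) {i : ℤ} {K : ℕ} (h : N B i K ≠ 2 ^ K - 1) :
    C i K = false := by
  by_contra hc
  exact h (C_true H (by simpa using hc)).2

theorem C_true_of_N (H : Half B C T) {i : ℤ} {K : ℕ} (h0 : C i 0 = true)
    (h : N B i K = 2 ^ K - 1) : C i K = true := by
  by_contra hc
  have hc' : C i K = false := by simpa using hc
  have h1 := N_step H i K
  rw [h0, hc', z_true, z_false, h] at h1
  have h2 := (N_bd B (i + 1) K).2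
  linarith

theorem det {B' C' : ℤ → ℕ → Bool} {T' : ℤ → ℕ → ℤ → Bool} (H : Half B C T) (H' : Half B' C' T')
    {i i' : ℤ} {K : ℕ} (h0 : C i 0 = C' i' 0) (hN : N B i K = N B' i' K) :
    ∀ k ≤ K, C i k = C' i' k := by
  have hb := bits_eq hN
  intro k
  induction k with
  | zero => intro _; exact h0
  | succ k ih =>
    intro hk
    rw [H.cn, H'.cn, ih (by omega), hb k (by omega)]

theorem detT {B' C' : ℤ → ℕ → Bool} {T' : ℤ → ℕ → ℤ → Bool} (H : Half B C T) (H' : Half B' C' T')
    {i i' : ℤ} {K : ℕ} (hN : N B i K = N B' i' K) {M off : ℤ}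
    (hT : ∀ h, -M ≤ h → h ≤ M → T i K h = T' i' K (h + off)) :
    ∀ m ≤ K, ∀ h, -M + m ≤ h → h ≤ M - m → T i (K - m) h = T' i' (K - m) (h + off) := by
  have hb := bits_eq hN
  intro m
  induction m with
  | zero => intro _ h h1 h2; exact hT h (by simpa using h1) (by simpa using h2)
  | succ m ih =>
    intro hm h h1 h2
    have e : K - (m + 1) + 1 = K - m := by omega
    have hb1 := hb (K - (m + 1)) (by omega)
    rw [H.r1, H'.r1, e, ← hb1]
    have e2 : h + off - z (B i (K - (m + 1))) = h - z (B i (K - (m + 1))) + off := by ring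
    rw [e2]
    have hz : z (B i (K - (m + 1))) = 0 ∨ z (B i (K - (m + 1))) = 1 := by
      cases B i (K - (m + 1)) <;> simp [z]
    push_cast at h1 h2
    apply ih (by omega) <;> rcases hz with hz | hz <;> rw [hz] <;> omega

theorem T_const (H : Half B C T) {K : ℕ} {i1 i2 : ℤ} (h12 : i1 ≤ i2)
    (hc : ∀ i, i1 ≤ i → i < i2 → C i K = false) (h : ℤ) : T i2 K h = T i1 K h := by
  obtain ⟨m, rfl⟩ := Int.le.dest h12
  clear h12
  induction m with
  | zero => simp
  | succ m ih =>
    have e : i1 + ((m + 1 : ℕ) : ℤ) = (i1 + m) + 1 := by push_cast; ring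
    rw [e, H.r2 _ _ _ (hc _ (by omega) (by rw [e]; omega))]
    exact ih (fun i h1 h2 => hc i h1 (by rw [e]; omega))

theorem N_const (H : Half B C T) {K : ℕ} {i1 i2 : ℤ} (h12 : i1 ≤ i2)
    (hc : ∀ i, i1 ≤ i → i < i2 → C i 0 = false) : N B i2 K = N B i1 K := by
  obtain ⟨m, rfl⟩ := Int.le.dest h12
  clear h12
  induction m with
  | zero => simp
  | succ m ih =>
    have e : i1 + ((m + 1 : ℕ) : ℤ) = (i1 + m) + 1 := by push_cast; ring
    have hc0 := hc (i1 + m) (by omega) (by rw [e]; omega)
    have hcK : C (i1 + m) K = false := by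
      by_contra hh
      have := (C_true H (i := i1 + m) (K := K) (by simpa using hh)).1
      rw [hc0] at this; exact absurd this (by simp)
    have := N_step H (i1 + m) K
    rw [hc0, hcK, z_false] at this
    rw [e]
    have h2 := ih (fun i h1 h2 => hc i h1 (by rw [e]; omega))
    linarith

/-- with a wall, the counter increases by one in each row -/
theorem N_mod (H : Half B C T) (h0 : ∀ i, C i 0 = true) (i : ℤ) (K : ℕ) :
    N B i K = (N B 0 K + i) % 2 ^ K := by
  have hstep : ∀ i, N B (i + 1) K ≡ N B i K + 1 [ZMOD 2 ^ K] := by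
    intro i
    have h1 := N_step H i K
    rw [h0, z_true] at h1
    rw [← h1]
    exact (Int.modEq_iff_dvd.2 ⟨z (C i K), by ring⟩)
  have hall : N B i K ≡ N B 0 K + i [ZMOD 2 ^ K] := by
    induction i with
    | zero => simp [Int.ModEq]
    | succ i ih =>
      refine (hstep i).trans ?_
      rw [← add_assoc]
      exact ih.add_right 1
    | pred i ih =>
      have h1 := hstep (-(i : ℤ) - 1)
      rw [sub_add_cancel] at h1
      have h2 := h1.symm.trans ih
      have h3 := h2.sub_right 1
      rw [add_sub_cancel_right] at h3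
      refine h3.trans ?_
      rw [add_sub_assoc]
  obtain ⟨h1, h2⟩ := N_bd B i K
  rw [← hall, Int.emod_eq_of_lt h1 h2]

/-- shifting the columns -/
theorem Half.shift (H : Half B C T) (K : ℕ) :
    Half (fun i k => B i (K + k)) (fun i k => C i (K + k)) (fun i k => T i (K + k)) where
  cn i k := H.cn i (K + k)
  bx i k := H.bx i (K + k)
  th i k := H.th i (K + k)
  r1 i k := H.r1 i (K + k)
  r2 i k := H.r2 i (K + k)
  r3 i k := H.r3 i (K + k)

/-! ### The model counter -/

def Bn (r : ℤ) (k : ℕ) : Bool := decide (D r k % 2 = 1)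
def Cn (r : ℤ) (k : ℕ) : Bool := decide (D (r + 1) k ≠ D r k)
def Tn (n : ℕ) (r : ℤ) (k : ℕ) (h : ℤ) : Bool := Sg n (D r k) h

theorem Sg_half (n : ℕ) (d h : ℤ) : Sg n d h = Sg n (d / 2) (h - z (decide (d % 2 = 1))) := by
  unfold Sg
  rw [decide_eq_decide]
  rcases lt_or_ge d 0 with hd | hd
  · constructor <;> intro _ <;> left <;> omega
  · obtain ⟨m, rfl⟩ := Int.eq_ofNat_of_zero_le hd
    have e1 : ((m : ℤ) / 2).toNat = m / 2 := by omega
    rw [Int.toNat_natCast, e1, ds_rec m]
    rcases Nat.mod_two_eq_zero_or_one m with h0 | h0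
    · have : ¬ ((m : ℤ) % 2 = 1) := by omega
      simp only [this, decide_false, z_false, h0]
      push_cast
      constructor <;> rintro (h | h) <;> first | (exfalso; omega) | (right; omega)
    · have : ((m : ℤ) % 2 = 1) := by omega
      simp only [this, decide_true, z_true, h0]
      push_cast
      constructor <;> rintro (h | h) <;> first | (exfalso; omega) | (right; omega)

theorem Sg_down (n : ℕ) (d h : ℤ) (hh : Sg n d (h + 1) = true) : Sg n d h = true := by
  unfold Sg at *
  rw [decide_eq_true_iff] at *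
  rcases hh with hh | hh
  · exact Or.inl hh
  · right; omega

theorem Sg_step (n : ℕ) (d h : ℤ) (hh : Sg n (d + 1) (h + 1) = true) : Sg n d h = true := by
  unfold Sg at *
  rw [decide_eq_true_iff] at *
  rcases lt_or_ge d 0 with hd | hd
  · exact Or.inl hd
  · right
    rcases hh with hh | hh
    · omega
    · have e : (d + 1).toNat = d.toNat + 1 := by omega
      rw [e] at hh
      have := ds_succ_le d.toNat
      omega

theorem half_model (n : ℕ) : Half Bn Cn (Tn n) where
  cn i k := by
    unfold Cn Bn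
    rw [D_succ, D_succ, Bool.eq_iff_iff, Bool.and_eq_true, decide_eq_true_iff, decide_eq_true_iff,
      decide_eq_true_iff]
    rcases D_next i k with h | h <;> rw [h] <;> omega
  bx i k := by
    unfold Cn Bn
    rcases D_next i k with h | h
    · rw [h]; simp
    · rw [h]
      have : D i k + 1 ≠ D i k := by omega
      simp only [this, decide_true, ne_eq, not_false_eq_true, Bool.xor_true]
      rw [Bool.eq_iff_iff]
      simp only [decide_eq_true_eq, Bool.not_eq_true', decide_eq_false_iff_not]
      omega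
  th i k h := Sg_down n _ h
  r1 i k h := by
    unfold Tn Bn
    rw [D_succ]
    exact Sg_half n _ h
  r2 i k h hc := by
    unfold Cn at hc
    unfold Tn
    have : D (i + 1) k = D i k := by simpa using hc
    rw [this]
  r3 i k h hc := by
    unfold Cn at hc
    unfold Tn
    have h1 : D (i + 1) k ≠ D i k := by simpa using hc
    rcases D_next i k with h2 | h2
    · exact absurd h2 h1
    · rw [h2]; exact Sg_step n _ h

theorem Cn_zero (i : ℤ) : Cn i 0 = true := by simp [Cn, D_zero]

theorem N_model (r : ℤ) (K k : ℕ) : N (fun i j => Bn i (k + j)) r K = D r k % 2 ^ K := by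
  induction K with
  | zero => simp [N]
  | succ K ih =>
    unfold N
    rw [ih]
    have e1 : D r (k + K) = D r k / 2 ^ K := by rw [D_add]; rfl
    simp only [Bn, e1]
    set d := D r k
    have h1 := Int.emod_add_mul_ediv d (2 ^ K)
    have h2 := Int.emod_add_mul_ediv d (2 ^ (K + 1))
    have h3 : d / 2 ^ (K + 1) = d / 2 ^ K / 2 := by
      rw [pow_succ, Int.ediv_ediv_of_nonneg (by positivity)]
    have h4 : z (decide (d / 2 ^ K % 2 = 1)) = d / 2 ^ K % 2 := by
      rcases Int.emod_two_eq_zero_or_one (d / 2 ^ K) with h | h <;> rw [h] <;> simp [z]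
    have h5 := Int.emod_add_mul_ediv (d / 2 ^ K) 2
    rw [h4]
    rw [h3, pow_succ] at h2
    rw [pow_succ]
    generalize d / 2 ^ K = e at *
    generalize e % 2 = f at *
    generalize e / 2 = g at *
    have : d % (2 ^ K * 2) = d - 2 ^ K * 2 * g := by linarith
    rw [this]
    have : d % 2 ^ K = d - 2 ^ K * e := by linarith
    rw [this, ← h5]; ring

end Pool.Agent.P8H73.CH
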